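import Pool.Agent.H255R.VZ.Main

/-!
# The conjecture of Voisin on zero-cycles on self-products of surfaces holds for products of two
curves, for the quotients of products of two curves by diagonal actions of elementary abelian
2-groups, and for symmetric squares of curves, abelian surfaces and Fano surfaces
-/

open CategoryTheory AlgebraicGeometry

universe u v

namespace Pool.Agent.Results.MP_83b46e_ag.ProductsOfCurves

open Pool.Agent.H914 Pool.Agent.H914.VarClass Pool.Agent.H914.VarClass.Obj Pool.Agent.W492.BB
  Pool.Agent.W550.Corr Pool.Agent.TH133 Pool.Agent.Y152.AS Pool.Agent.H255R.PC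
  Pool.Agent.H255R.VZ

/-- Consider a class of varieties closed under products (for example all smooth projective varieties
over `ℂ`), with its Chow groups with rational coefficients and the classes of its points.

1. Let `V` and `W` be curves with Jacobians of dimensions `g` and `h`. For every number
   `N > g h = p_g(V × W)` and all Albanese-trivial zero-cycles `a_1, …, a_N` on `V × W`, the
   alternating sum of the zero-cycles `a_{σ(1)} × ⋯ × a_{σ(N)}` vanishes in `CH_0((V × W)^N)_ℚ`.
2. Let `V` and `W` be curves with commuting involutions `σ_1, …, σ_m` and `τ_1, …, τ_m`, and let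
   `S` be a smooth projective model of the quotient of `V × W` by the group generated by the
   `σ_i × τ_i`. For every character `χ` of `(ℤ/2)^m` let `g_χ` and `h_χ` be the dimensions of the
   `χ`-parts of the Jacobians of `V` and `W`. For every number `N > ∑_χ g_χ h_χ = p_g(S)` the
   alternating sums of all Albanese-trivial zero-cycles `a_1, …, a_N` on `S` vanish in
   `CH_0(S^N)_ℚ`.
3. Let `S` be a variety with Albanese variety of dimension `q`, such that the Albanese-trivial
   zero-cycles on `S` are generated by the products `D D'` of classes `D`, `D'` in `Pic^0(S)_ℚ`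
   (for example an abelian surface, the symmetric square of a curve of genus `q`, or the Fano
   surface of lines of a cubic threefold). For every number `N > q (q - 1) / 2` (which is `p_g(S)`
   in these examples) the alternating sums of all Albanese-trivial zero-cycles `a_1, …, a_N` on `S`
   vanish in `CH(S^N)_ℚ`. -/
theorem result {k : Type u} [Field k] {𝒱 : VarClass k} {C : TheoryData.{u, v, 0} 𝒱 ℚ}
    [IsChowProj C] {pt : ∀ X : 𝒱.Obj, Set (C.A X)} (hp : IsPoints C pt) :
    (∀ (V W : 𝒱.Obj) (g h : ℕ), V.dim = 1 → W.dim = 1 → HasAlbanese C V (degZero C V) g →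
      HasAlbanese C W (degZero C W) h → VoisinHolds C (V.prod W) (g * h)) ∧
    (∀ (V W S : 𝒱.Obj) (m : ℕ) (σ : Fin m → (V ⟶ V)) (τ : Fin m → (W ⟶ W))
      (g h : (Fin m → Bool) → ℕ), V.dim = 1 → W.dim = 1 → IsInvolutions σ → IsInvolutions τ →
      (∀ χ, HasAlbanese C V (eigen C σ χ) (g χ)) → (∀ χ, HasAlbanese C W (eigen C τ χ) (h χ)) →
      IsQuotientModel C σ τ S → VoisinHolds C S (∑ χ, g χ * h χ)) ∧
    (∀ (S : 𝒱.Obj) (q : ℕ), HasAlbanese C S (picZero C S) q →
      (∀ z : C.A S, AlbTrivial C z → z ∈ Submodule.span ℚ {z | ∃ D ∈ picZero C S,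
        ∃ D' ∈ picZero C S, z = C.mul D D'}) → VoisinHolds C S (q * (q - 1) / 2)) := by
  refine ⟨fun V W g h hV hW hg hh => main_prod hp hV hW hg hh, ?_, ?_⟩
  · intro V W S m σ τ g h hV hW hσ hτ hg hh hS
    exact main_quot hp hV hW hσ hτ hg hh hS
  · intro S q hS hgen
    rw [← Nat.choose_two_right]
    exact main_pic hS hgen

end Pool.Agent.Results.MP_83b46e_ag.ProductsOfCurves
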